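import Mathlib
import Pool.Agent.Lib_helper29.QuasiDefs
import Pool.Agent.Lib_helper29.QuasiProofs

set_option autoImplicit false

namespace Pool.Agent.Results.MP_232433_lc.RowColQuasi

open Pool.Agent.Lib_helper29.SepBP

/-- The row-and-column function lies in `Σ₂^p`, hence in `Σ₃^p ∩ Π₃^p`, and it separates
`NP ∩ co-NP` from quasipolynomial size for 1-b.p.; in fact every 1-b.p. for its `n`-variable member
has at least `2 ^ z` nodes whenever `(4 z² + 2)² ≤ n`. -/
theorem result : SigmaP 2 rowCol ∧ SigmaP 3 rowCol ∧ PiP 3 rowCol ∧ SeparatesQuasi rowCol ∧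
    ∀ n z : ℕ, (4 * z ^ 2 + 2) ^ 2 ≤ n → ∀ P : BP n,
      P.Deterministic → P.CompReadOnce → P.Computes (rowCol n) → 2 ^ z ≤ P.size :=
  quasi_main

end Pool.Agent.Results.MP_232433_lc.RowColQuasi
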